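import Pool.Agent.Lib_helper27.S.Defs

set_option autoImplicit false

namespace Pool.Agent.Lib_helper27.S

open R V Q Cardinal

namespace D1

noncomputable abbrev κ : Cardinal.{0} := #(ℕ → Om2)

/-- the index type -/
abbrev X0 : Type := (κ.ord).ToType

theorem mk_X0 : #X0 = κ := Cardinal.mk_ord_toType κ

theorem kappa_eq : κ = (aleph 2 : Cardinal.{0}) ^ (ℵ₀ : Cardinal.{0}) := by
  show #(ℕ → Om2) = _
  rw [← Cardinal.power_def, mk_om2, mk_nat]

theorem kappa_pow : κ ^ (ℵ₀ : Cardinal.{0}) = κ := by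
  rw [kappa_eq, ← Cardinal.power_mul, Cardinal.aleph0_mul_aleph0]

theorem le_kappa2 : (aleph 2 : Cardinal.{0}) ≤ κ := by
  rw [kappa_eq]
  exact Cardinal.self_le_power _ (Cardinal.one_le_aleph0)

theorem le_kappa1 : (aleph 1 : Cardinal.{0}) ≤ κ :=
  le_trans (Cardinal.aleph_le_aleph.2 (by norm_num)) le_kappa2

theorem le_kappa0 : (ℵ₀ : Cardinal.{0}) ≤ κ := le_trans (Cardinal.aleph0_le_aleph 2) le_kappa2

theorem prod_le {α β : Type} (hα : #α ≤ κ) (hβ : #β ≤ κ) : #(α × β) ≤ κ := by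
  rw [Cardinal.mk_prod, Cardinal.lift_id, Cardinal.lift_id]
  exact (mul_le_mul' hα hβ).trans (Cardinal.mul_eq_self le_kappa0).le

theorem finset_le' {α : Type} (hα : #α ≤ κ) : #(Finset α) ≤ κ := by
  have h1 : #α ≤ #X0 := by rw [mk_X0]; exact hα
  obtain ⟨e⟩ := Cardinal.le_def α X0 |>.1 h1
  have h2 : Function.Injective (fun s : Finset α => s.map e) := Finset.map_injective e
  refine (Cardinal.mk_le_of_injective h2).trans ?_
  have hinf : Infinite X0 := Cardinal.infinite_iff.2 (by rw [mk_X0]; exact le_kappa0)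
  rw [Cardinal.mk_finset_of_infinite, mk_X0]

theorem finsupp_le {α β : Type} [Zero β] (hα : #α ≤ κ) (hβ : #β ≤ κ) : #(α →₀ β) ≤ κ := by
  have hinj : Function.Injective (fun f : α →₀ β => f.graph) := Finsupp.graph_injective α β
  exact (Cardinal.mk_le_of_injective hinj).trans (finset_le' (prod_le hα hβ))

theorem nat_le : #ℕ ≤ κ := by rw [Cardinal.mk_nat]; exact le_kappa0

theorem om1_le : #Om1 ≤ κ := by rw [mk_om1]; exact le_kappa1

theorem X_le : #X0 ≤ κ := by rw [mk_X0]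

theorem list_le : #(List ℕ) ≤ κ := by
  refine le_trans ?_ nat_le
  rw [Cardinal.mk_nat]
  exact Cardinal.mk_le_aleph0

theorem cd_le : #(Cd X0) ≤ κ := by
  have hinj : Function.Injective (fun d : Cd X0 => ((d.k, d.s), d.F)) := by
    intro a b h
    simp only [Prod.mk.injEq] at h
    exact Cd.ext h.1.1 h.1.2 h.2
  refine (Cardinal.mk_le_of_injective hinj).trans ?_
  exact prod_le (prod_le nat_le (finsupp_le list_le nat_le)) (finset_le' X_le)

theorem cnd_le : #(Cnd X0 Om1 X0) ≤ κ := by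
  have hinj : Function.Injective (fun p : Cnd X0 Om1 X0 => (p.c, p.a)) := by
    intro a b h
    simp only [Prod.mk.injEq] at h
    exact Cnd.ext h.1 h.2
  refine (Cardinal.mk_le_of_injective hinj).trans ?_
  exact prod_le (finsupp_le (prod_le X_le nat_le) nat_le) (finsupp_le om1_le cd_le)

theorem fn_le {α : Type} (hα : #α ≤ κ) : #(ℕ → α) ≤ κ := by
  rw [← Cardinal.power_def, Cardinal.mk_nat]
  calc #α ^ (ℵ₀ : Cardinal.{0}) ≤ κ ^ (ℵ₀ : Cardinal.{0}) := Cardinal.power_le_power_right hα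
    _ = κ := kappa_pow

end D1

/-- D1: there are enough labels. -/
theorem exists_labels_pr : ∃ (X : Type) (_ : LinearOrder X) (_ : WellFoundedLT X) (_ : Nonempty X)
    (E : Nms X Om1 X), aleph 2 ≤ #X ∧ ∀ F : ℕ → ℕ → Cnd X Om1 X × ℕ, ∃ e, E e = F := by
  have hne : Nonempty D1.X0 := by
    have : Infinite D1.X0 := Cardinal.infinite_iff.2 (by rw [D1.mk_X0]; exact D1.le_kappa0)
    infer_instance
  refine ⟨D1.X0, inferInstance, inferInstance, hne, ?_⟩
  have h1 : #(ℕ → ℕ → Cnd D1.X0 Om1 D1.X0 × ℕ) ≤ #D1.X0 := by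
    rw [D1.mk_X0]
    exact D1.fn_le (D1.fn_le (D1.prod_le D1.cnd_le D1.nat_le))
  have hne2 : Nonempty (ℕ → ℕ → Cnd D1.X0 Om1 D1.X0 × ℕ) := ⟨fun _ _ => (⟨0, 0⟩, 0)⟩
  obtain ⟨e⟩ := Cardinal.le_def (ℕ → ℕ → Cnd D1.X0 Om1 D1.X0 × ℕ) D1.X0 |>.1 h1
  refine ⟨Function.invFun e, ?_, fun F => ⟨e F, Function.leftInverse_invFun e.injective F⟩⟩
  rw [D1.mk_X0]
  exact D1.le_kappa2

/-! ### D2 -/

theorem ty_ne_pr (n m : ℕ) (hn : 1 ≤ n) : ∀ b : Bool, ∃ i ≤ n, ty n m i = b := by
  intro b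
  unfold ty
  by_cases h : (∀ j ≤ n, Nat.testBit (Nat.unpair m).1 j = true) ∨
      ∀ j ≤ n, Nat.testBit (Nat.unpair m).1 j = false
  · cases b
    · exact ⟨1, hn, by rw [if_pos h]; simp⟩
    · exact ⟨0, Nat.zero_le n, by rw [if_pos h]; simp⟩
  · push Not at h
    obtain ⟨⟨j, hj, h1⟩, ⟨k, hk, h2⟩⟩ := h
    have h' : ¬ ((∀ j ≤ n, Nat.testBit (Nat.unpair m).1 j = true) ∨
      ∀ j ≤ n, Nat.testBit (Nat.unpair m).1 j = false) := by
      rintro (h3 | h3)
      · exact h1 (h3 j hj)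
      · exact h2 (h3 k hk)
    cases b
    · refine ⟨j, hj, ?_⟩
      rw [if_neg h']
      simpa using h1
    · refine ⟨k, hk, ?_⟩
      rw [if_neg h']
      simpa using h2

/-- D2 (second part) -/
theorem exists_ty_pr (n : ℕ) (s : Finset ℕ) (hs : ∀ i ∈ s, i ≤ n) (hs' : s.card ≤ n) (hn : 1 ≤ n)
    (τ : ℕ → Bool) : ∃ a, ∀ k, ∀ i ∈ s, ty n (Nat.pair a k) i = τ i := by
  classical
  -- there is a place `j0 ≤ n` outside of `s`
  obtain ⟨j0, hj0, hj0s⟩ : ∃ j ≤ n, j ∉ s := by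
    by_contra hcon
    push Not at hcon
    have h1 : Finset.range (n + 1) ⊆ s := fun j hj => hcon j (Nat.lt_succ_iff.1 (Finset.mem_range.1 hj))
    have h2 := Finset.card_le_card h1
    rw [Finset.card_range] at h2
    omega
  -- a second place
  obtain ⟨j1, hj1, hj01⟩ : ∃ j ≤ n, j ≠ j0 := by
    rcases Nat.eq_zero_or_pos j0 with h | h
    · exact ⟨1, hn, by omega⟩
    · exact ⟨0, Nat.zero_le n, by omega⟩
  -- the function: `τ` on `s`, at `j0` the negation of the value at `j1`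
  let v1 : Bool := if j1 ∈ s then τ j1 else true
  let f : ℕ → Bool := fun j => if j ∈ s then τ j else if j = j0 then !v1 else true
  -- the number with these bits
  obtain ⟨a, ha⟩ : ∃ a : ℕ, ∀ j ≤ n, Nat.testBit a j = f j := by
    refine ⟨∑ j ∈ (Finset.range (n + 1)).filter (fun j => f j = true), 2 ^ j, ?_⟩
    intro j hj
    have h1 := Finset.toFinset_bitIndices_sum_two_pow
      ((Finset.range (n + 1)).filter (fun j => f j = true))
    have h2 : j ∈ (∑ j ∈ (Finset.range (n + 1)).filter (fun j => f j = true), 2 ^ j).bitIndices.toFinset ↔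
        f j = true := by
      rw [h1, Finset.mem_filter, Finset.mem_range]
      exact ⟨fun h => h.2, fun h => ⟨Nat.lt_succ_iff.2 hj, h⟩⟩
    rw [List.mem_toFinset, Nat.mem_bitIndices] at h2
    rcases hfj : f j with _ | _
    · rw [hfj] at h2
      simpa using h2
    · rw [hfj] at h2
      simpa using h2
  refine ⟨a, fun k i hi => ?_⟩
  have hu : (Nat.unpair (Nat.pair a k)).1 = a := by rw [Nat.unpair_pair]
  unfold ty
  rw [hu]
  have hf0 : f j0 = !v1 := by
    show (if j0 ∈ s then τ j0 else if j0 = j0 then !v1 else true) = !v1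
    rw [if_neg hj0s, if_pos rfl]
  have hf1 : f j1 = v1 := by
    show (if j1 ∈ s then τ j1 else if j1 = j0 then !v1 else true) = (if j1 ∈ s then τ j1 else true)
    rw [if_neg hj01]
  have hne : ¬ ((∀ j ≤ n, Nat.testBit a j = true) ∨ ∀ j ≤ n, Nat.testBit a j = false) := by
    rintro (h | h)
    · have h0 := h j0 hj0
      have h1 := h j1 hj1
      rw [ha j0 hj0, hf0] at h0
      rw [ha j1 hj1, hf1] at h1
      rw [h1] at h0
      simp at h0
    · have h0 := h j0 hj0
      have h1 := h j1 hj1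
      rw [ha j0 hj0, hf0] at h0
      rw [ha j1 hj1, hf1] at h1
      rw [h1] at h0
      simp at h0
  rw [if_neg hne, ha i (hs i hi)]
  show (if i ∈ s then τ i else if i = j0 then !v1 else true) = τ i
  rw [if_pos hi]

end Pool.Agent.Lib_helper27.S
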